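import Mathlib
import Pool.Agent.R859.DM.Mult

/-!
# A holonomic D-module in characteristic `p` whose normalised dimensions do not converge

For every prime `p` and every field `k` of characteristic `p`, there is a holonomic module `M` over
the ring of differential operators of `k[x]`, generated by one element `z`, for which
`dim_k (F_i z) / i` does not converge.
-/

set_option autoImplicit false

namespace Pool.Agent.Results.MP_12ebf5_al.NoLimit

open Pool.Agent.R859.DM

theorem result (p : ℕ) [Fact p.Prime] (k : Type) [Field k] [CharP k p] :
    ∃ (M : Type) (_ : AddCommGroup M) (_ : Module k M) (_ : Module (DD k 1) M)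
      (_ : IsScalarTower k (DD k 1) M) (z : M),
      IsHolonomic k 1 M ∧ Submodule.span (DD k 1) {z} = ⊤ ∧
        (∀ i, Module.Finite k (filt k 1 M {z} i)) ∧
        ¬ ∃ L : ℝ, Filter.Tendsto
          (fun i : ℕ => (Module.finrank k (filt k 1 M {z} i) : ℝ) / (i : ℝ))
          Filter.atTop (nhds L) :=
  ⟨MZ k p, inferInstance, inferInstance, inferInstance, inferInstance, ez k p 0,
    isHolonomicZ, span_ez, finite_filt, not_tendsto_uu⟩

end Pool.Agent.Results.MP_12ebf5_al.NoLimit
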